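import Pool.Agent.Lib.KS.SDefs3
import Pool.Agent.Lib.KS.Top3

/-! The Kodaira dimension of a compact Kähler klt pair with nef log canonical class is at least the
order of growth of the cohomology of `K + a L`. -/

open scoped Manifold ContDiff Topology

namespace Pool.Agent.Results.MP_9a2ae6_ag.KaehlerKodairaGrowth

open Pool.Agent.Lib.SV Pool.Agent.Lib.HS Pool.Agent.Lib.GH Pool.Agent.Lib.ZK47 Pool.Agent.Lib.ZE
  Pool.Agent.Lib.KS

theorem result (n : ℕ) (X ι I J : Type) [TopologicalSpace X] [ChartedSpace (E n) X]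
    [IsManifold 𝓘(ℂ, E n) ω X] [CompactSpace X] [T2Space X] [ConnectedSpace X] [Fintype I]
    [Fintype J] (G w : X → Mat n) (U : ι → Set X) (f : I → ι → X → ℂ) (u : I → ι → ι → X → ℂ)
    (g : J → ι → X → ℂ) (v : J → ι → ι → X → ℂ) (c : ℕ) (p : I → ℕ) (e : J → ℕ) (q d C : ℕ)
    (hn : 0 < n) (hG : Kaehler G) (hw : BigForm n w) (hc : 0 < c)
    (hB : KltR n U f u (fun k => p k / c)) (hE : Exc n w U g v (fun j => e j / c))
    (hA : Amp U v w g) (hN : NefW n G w U (Sum.elim u v) (fun k => cf p e k / c))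
    (hq : {a : ℕ |
      (a + 1) ^ d ≤ C * hd n U (Sum.elim u v) (a * c + 1) (fun k => a * cf p e k) q}.Infinite) :
    ∃ C' : ℕ, {m : ℕ | ∃ (k : ℕ) (s : Fin k → ι → X → E n [⋀^Fin 0]→ₗ[ℂ] ℂ), (m + 1) ^ d ≤ C' * k ∧
      LinearIndependent ℂ s ∧
      ∀ j, s j ∈ Cl n U (Sum.elim u v) (m * c) (fun k => m * cf p e k) 0}.Infinite :=
  aPK n X ι I J G w U f u g v c p e q d C hn hG hw hc hB hE hA hN hq

end Pool.Agent.Results.MP_9a2ae6_ag.KaehlerKodairaGrowth
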