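import Pool.Agent.Lib.KS.SDefs3
import Pool.Agent.Lib.KS.Top3

/-! Abundance for the compact Kähler klt pairs such that the cohomology of `K + a L` has the largest
possible order of growth, the numerical dimension. -/

open scoped Manifold ContDiff Topology

namespace Pool.Agent.Results.MP_9a2ae6_ag.KaehlerSemiample

open Pool.Agent.Lib.SV Pool.Agent.Lib.HS Pool.Agent.Lib.GH Pool.Agent.Lib.ZK47 Pool.Agent.Lib.ZE
  Pool.Agent.Lib.KS

theorem result (n : ℕ) (X ι I J : Type) [TopologicalSpace X] [ChartedSpace (E n) X]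
    [IsManifold 𝓘(ℂ, E n) ω X] [CompactSpace X] [T2Space X] [ConnectedSpace X] [Fintype I]
    [Fintype J] (G w : X → Mat n) (U : ι → Set X) (f : I → ι → X → ℂ) (u : I → ι → ι → X → ℂ)
    (g : J → ι → X → ℂ) (v : J → ι → ι → X → ℂ) (c : ℕ) (p : I → ℕ) (e : J → ℕ) (q d C : ℕ)
    (hn : 0 < n) (hG : Kaehler G) (hw : BigForm n w) (hc : 0 < c)
    (hB : KltR n U f u (fun k => p k / c)) (hE : Exc n w U g v (fun j => e j / c))
    (hA : Amp U v w g) (hN : NefW n G w U (Sum.elim u v) (fun k => cf p e k / c))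
    (hν : NuLe U (Sum.elim u v) G (fun k => cf p e k / c) d)
    (hq : {a : ℕ |
      (a + 1) ^ d ≤ C * hd n U (Sum.elim u v) (a * c + 1) (fun k => a * cf p e k) q}.Infinite) :
    ∃ m : ℕ, 0 < m ∧ ∀ i, ∀ x ∈ U i,
      ∃ s ∈ Cl n U (Sum.elim u v) (m * c) (fun k => m * cf p e k) 0, s i x ≠ 0 :=
  aPG n X ι I J G w U f u g v c p e q d C hn hG hw hc hB hE hA hN hν hq

end Pool.Agent.Results.MP_9a2ae6_ag.KaehlerSemiample
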