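import Pool.Agent.Lib.K2.All

open scoped Manifold ContDiff Topology

namespace Pool.Agent.Results.MP_9a2ae6_ag.NonvanishingCriterion

open Pool.Agent.Lib.SV Pool.Agent.Lib.KP Pool.Agent.Lib.EX Pool.Agent.Lib.NA Pool.Agent.Lib.K2

theorem result (n N : ℕ) (Y ι I : Type) [TopologicalSpace Y] [ChartedSpace (E n) Y]
    [IsManifold 𝓘(ℂ, E n) ω Y] [CompactSpace Y] [T2Space Y] [ConnectedSpace Y] [Fintype I]
    (m M : ℕ) (D : I → Set Y) (ex : Set I) (k : I → ℕ) (l : I → ℤ) (η : Y → ℂ)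
    (W : ι → Set Y) (σ : ι → Y → ℂ) (g : ι → ι → Y → ℂ) (p : ι → Y → E N) (f : ι → E N → ℝ)
    (hm : 0 < m) (hM : 0 < M) (hR : KRes n m D ex k l η W σ g p f) (hK : Klt m M ex k l)
    (hN : NefOn n W g p f) :
    (∃ e > 0, Gen n W (g ^ e) Set.univ) ↔
      ∀ (j q : ℕ) (s : Fin q → ι → Y → ℂ) (c : ℝ) (S : Set Y),
        (∀ b, SecOn n W (g ^ j) Set.univ (s b)) → (∃ b, s b = σ ^ j) →
        (∀ c' < c, ∀ y, Itg n D (fun i => k i / M - l i / m) W s c' y) →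
        S = {y | ∀ c' > c, ¬ Itg n D (fun i => k i / M - l i / m) W s c' y} → S.Nonempty →
        ∃ e > 0, ∃ u, SecOn n W (g ^ e) (Sat W p S) u ∧ ∃ a, ∃ y ∈ W a ∩ S, u a y ≠ 0 :=
  sH6 n N Y ι I m M D ex k l η W σ g p f hm hM hR hK hN

end Pool.Agent.Results.MP_9a2ae6_ag.NonvanishingCriterion
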