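import Pool.Agent.Lib.ZE.Top

/-! For a klt pair `(X, B)` on a compact Kähler manifold with `K + B = N + E`, `E` exceptional and
`N` nef relative to a big form, a plurisubharmonic metric on `N` with zero Lelong numbers. -/

open scoped Manifold ContDiff Topology
open MeasureTheory

namespace Pool.Agent.Results.MP_9a2ae6_ag.ZeroLelong

open Pool.Agent.Lib.SV Pool.Agent.Lib.HS Pool.Agent.Lib.GH Pool.Agent.Lib.ZL Pool.Agent.Lib.ZK47
  Pool.Agent.Lib.ZE

theorem result (n : ℕ) (X ι I J : Type) [TopologicalSpace X] [ChartedSpace (E n) X]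
    [IsManifold 𝓘(ℂ, E n) ω X] [CompactSpace X] [T2Space X] [ConnectedSpace X] [Fintype I]
    [Fintype J] (G w : X → Mat n) (U : ι → Set X) (f : I → ι → X → ℂ) (u : I → ι → ι → X → ℂ)
    (b : I → ℝ) (g : J → ι → X → ℂ) (v : J → ι → ι → X → ℂ) (a : J → ℝ)
    (hG : Kaehler G) (hw : BigForm n w) (hB : KltR n U f u b) (hE : Exc n w U g v a)
    (hN : NefW n G w U (Sum.elim u v) (Sum.elim b (-a))) :
    ∃ ψ : ι → X → EReal, Glue U (Sum.elim u v) (Sum.elim b (-a)) ψ ∧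
      ∀ i, ∀ x ∈ U i, ∃ V ∈ 𝓝 (chartAt (E n) x x),
        PshOn (fun z => ψ i ((chartAt (E n) x).symm z) + (Real.log (inChart G x z).det.re : ℝ)) V ∧
        ∀ c : ℝ, 0 < c → ∫⁻ z in V, EReal.exp (-(c * ψ i ((chartAt (E n) x).symm z))) < ⊤ :=
  aTOP n X ι I J G w U f u b g v a hG hw hB hE hN

end Pool.Agent.Results.MP_9a2ae6_ag.ZeroLelong
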